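import Pool.Agent.H50.NC.Targets

set_option autoImplicit false
set_option linter.unusedVariables false

namespace Pool.Agent.H39.NCK

open Pool.Agent.H48.ER Pool.Agent.H50.NC

theorem xr_update {V : Type} (P : Fin 3 → Set V) (i : Fin 3) (R : Set V) :
    Xr (Function.update P i R) i = Xr P i := by
  ext v
  constructor
  · rintro ⟨j, hj, hv⟩
    rw [Function.update_of_ne hj] at hv
    exact ⟨j, hj, hv⟩
  · rintro ⟨j, hj, hv⟩
    refine ⟨j, hj, ?_⟩
    rw [Function.update_of_ne hj]
    exact hv

theorem exists_other (i : Fin 3) : ∃ j : Fin 3, j ≠ i := by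
  revert i; decide

theorem cn_insert {V : Type} {G : SimpleGraph V} {S : Set V} (hc : Cn G S) (z : V)
    (hz : ∃ s ∈ S, G.Adj z s) : Cn G (insert z S) := by
  intro X hX hne hcl
  obtain ⟨s, hs, hzs⟩ := hz
  have hXS : (X ∩ S).Nonempty := by
    obtain ⟨x, hx⟩ := hne
    rcases hX hx with h | h
    · subst h
      exact ⟨s, hcl _ hx s (Or.inr hs) hzs, hs⟩
    · exact ⟨x, hx, h⟩
  have hE : X ∩ S = S := by
    refine hc (X ∩ S) Set.inter_subset_right hXS ?_
    intro u hu w hw ha
    exact ⟨hcl u hu.1 w (Or.inr hw) ha, hw⟩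
  have hSX : S ⊆ X := by
    intro u hu
    rw [← hE] at hu
    exact hu.1
  refine Set.Subset.antisymm hX ?_
  intro u hu
  rcases hu with h | h
  · subst h
    exact hcl s (hSX hs) _ (Or.inl rfl) hzs.symm
  · exact hSX h

theorem pf_KZ (hABN : T_ABN) : T_KZ := by
  intro V G a b n P i S z hH hN hS hz hAz
  have hP : Prism G a b n P := hS.pr.1
  obtain ⟨j0, hj0⟩ := exists_other i
  have hXb : ∀ j, j ≠ i → b j ∈ Xr P i := fun j hj => ⟨j, hj, hP.b_mem j⟩
  have hXa : ∀ j, j ≠ i → a j ∈ Xr P i := fun j hj => ⟨j, hj, hP.a_mem j⟩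
  -- `b i` is a neighbour of `S` of the second type
  have hbS : b i ∉ S := by
    intro h
    refine (hS.ne _ h _ (hXb j0 hj0)).2 ?_
    rw [hP.adj i j0 hj0.symm _ (hP.b_mem i) _ (hP.b_mem j0)]
    exact Or.inr ⟨rfl, rfl⟩
  have hn2 : 2 ≤ n i := by
    have h1 := hP.pos i
    obtain ⟨k, hk⟩ := hS.pr.2 i
    omega
  have hbn : ∃ s ∈ S, G.Adj (b i) s := by
    obtain ⟨g, g0, gn, gi, ga, hR⟩ := hP.ip i
    have hm : g (n i - 1) ∈ P i := by rw [hR]; exact ⟨n i - 1, by omega, rfl⟩
    refine ⟨g (n i - 1), hS.int _ hm ?_ ?_, ?_⟩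
    · intro e
      have := gi (n i - 1) 0 (by omega) (by omega) (by rw [e, g0])
      omega
    · intro e
      have := gi (n i - 1) (n i) (by omega) le_rfl (by rw [e, gn])
      omega
    · have := (ga (n i) (n i - 1) le_rfl (by omega)).2 (Or.inr (by omega))
      rwa [gn] at this
  have hbNb : Nb G S (b i) := ⟨hbS, hbn⟩
  have hAb : Al G b P i (b i) := by
    rintro v ⟨j, hj, hv⟩
    rw [hP.adj i j hj.symm _ (hP.b_mem i) _ hv]
    constructor
    · rintro (⟨h, _⟩ | ⟨_, h⟩)
      · exact absurd h.symm (hP.a_ne_b i i)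
      · exact ⟨j, hj, h⟩
    · rintro ⟨j', hj', h⟩
      refine Or.inr ⟨rfl, ?_⟩
      by_cases e : j = j'
      · rw [h, e]
      · exact absurd (h ▸ hP.b_mem j') (Set.disjoint_left.1 (hP.dis j j' e) hv)
  have hzb : ¬ G.Adj z (b i) := hABN V G a b n P i S z (b i) hH hS hz hbNb hAz hAb
  have hzX : z ∉ Xr P i := by
    intro h
    obtain ⟨s, hs, hzs⟩ := hz.2
    exact (hS.ne s hs z h).2 hzs.symm
  have hza : G.Adj z (a j0) := (hAz _ (hXa j0 hj0)).2 ⟨j0, hj0, rfl⟩
  have hzne : z ≠ b i := by
    intro e
    rw [e] at hza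
    obtain ⟨j', hj', h⟩ := (hAb _ (hXa j0 hj0)).1 hza
    exact hP.a_ne_b j0 j' h
  -- the new rung
  have hc1 : Cn G (insert (b i) S) := cn_insert hS.cn (b i) hbn
  have hc2 : Cn G (insert z (insert (b i) S)) := by
    refine cn_insert hc1 z ?_
    obtain ⟨s, hs, hzs⟩ := hz.2
    exact ⟨s, Or.inr hs, hzs⟩
  obtain ⟨m, R, hR, hRS⟩ := c_CON V G (insert z (insert (b i) S)) z (b i) hc2 (Or.inl rfl)
    (Or.inr (Or.inl rfl))
  have hm2 : 1 ≤ m := by
    by_contra h
    have h0 : m = 0 := by omega
    subst h0
    exact hzne hR.eq_of_zero.1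
  have hRX : ∀ u ∈ R, u ∉ Xr P i := by
    intro u hu hX
    rcases hRS hu with h | h | h
    · subst h
      exact hzX hX
    · subst h
      obtain ⟨j, hj, hv⟩ := hX
      exact Set.disjoint_left.1 (hP.dis i j hj.symm) (hP.b_mem i) hv
    · exact (hS.ne u h u hX).1 rfl
  have hRadj : ∀ j, j ≠ i → ∀ u ∈ R, ∀ v ∈ P j,
      G.Adj u v ↔ (u = z ∧ v = a j) ∨ (u = b i ∧ v = b j) := by
    intro j hj u hu v hv
    have hvX : v ∈ Xr P i := ⟨j, hj, hv⟩
    rcases hRS hu with h | h | h
    · subst h
      rw [hAz v hvX]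
      constructor
      · rintro ⟨j', hj', h⟩
        refine Or.inl ⟨rfl, ?_⟩
        by_cases e : j = j'
        · rw [h, e]
        · exact absurd (h ▸ hP.a_mem j') (Set.disjoint_left.1 (hP.dis j j' e) hv)
      · rintro (⟨_, h⟩ | ⟨h, _⟩)
        · exact ⟨j, hj, h⟩
        · exact absurd h hzne
    · subst h
      rw [hAb v hvX]
      constructor
      · rintro ⟨j', hj', h⟩
        refine Or.inr ⟨rfl, ?_⟩
        by_cases e : j = j'
        · rw [h, e]
        · exact absurd (h ▸ hP.b_mem j') (Set.disjoint_left.1 (hP.dis j j' e) hv)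
      · rintro (⟨h, _⟩ | ⟨_, h⟩)
        · exact absurd h.symm hzne
        · exact ⟨j, hj, h⟩
    · constructor
      · intro ha
        exact absurd ha (hS.ne u h v hvX).2
      · rintro (⟨h1, _⟩ | ⟨h1, _⟩)
        · exact absurd (h1 ▸ h) hz.1
        · exact absurd (h1 ▸ h) hbS
  have hpr : Prism G (Function.update a i z) b (Function.update n i m)
      (Function.update P i R) := by
    refine ⟨?_, ?_, ?_, ?_⟩
    · intro l
      by_cases e : l = i
      · subst e
        simp only [Function.update_self]
        exact hR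
      · simp only [Function.update_of_ne e]
        exact hP.ip l
    · intro l
      by_cases e : l = i
      · subst e
        simp only [Function.update_self]
        exact hm2
      · simp only [Function.update_of_ne e]
        exact hP.pos l
    · intro l j hlj
      by_cases e : l = i
      · subst e
        rw [Function.update_self, Function.update_of_ne hlj.symm, Set.disjoint_left]
        intro u hu hv
        exact hRX u hu ⟨j, hlj.symm, hv⟩
      · by_cases e' : j = i
        · subst e'
          rw [Function.update_self, Function.update_of_ne e, Set.disjoint_left]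
          intro u hv hu
          exact hRX u hu ⟨l, e, hv⟩
        · rw [Function.update_of_ne e', Function.update_of_ne e]
          exact hP.dis l j hlj
    · intro l j hlj u hu v hv
      by_cases e : l = i
      · subst e
        rw [Function.update_self] at hu
        rw [Function.update_of_ne hlj.symm] at hv
        rw [Function.update_self, Function.update_of_ne hlj.symm]
        exact hRadj j hlj.symm u hu v hv
      · by_cases e' : j = i
        · subst e'
          rw [Function.update_self] at hv
          rw [Function.update_of_ne e] at hu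
          rw [Function.update_self, Function.update_of_ne e, SimpleGraph.adj_comm,
            hRadj l e v hv u hu]
          constructor
          · rintro (⟨h1, h2⟩ | ⟨h1, h2⟩)
            · exact Or.inl ⟨h2, h1⟩
            · exact Or.inr ⟨h2, h1⟩
          · rintro (⟨h1, h2⟩ | ⟨h1, h2⟩)
            · exact Or.inl ⟨h2, h1⟩
            · exact Or.inr ⟨h2, h1⟩
        · rw [Function.update_of_ne e] at hu
          rw [Function.update_of_ne e'] at hv
          rw [Function.update_of_ne e, Function.update_of_ne e']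
          exact hP.adj l j hlj u hu v hv
  refine ⟨Function.update a i z, Function.update n i m, Function.update P i R, ?_, ?_, ?_⟩
  · refine ⟨⟨hpr, (c_EVN V G _ _ _ _ hH hpr).2 hN⟩, hS.cn, ?_, ?_, ?_⟩
    · intro v hv h1 h2
      rw [Function.update_self] at hv h1
      rcases hRS hv with h | h | h
      · exact absurd h h1
      · exact absurd h h2
      · exact h
    · rw [xr_update]
      exact hS.ne
    · rw [xr_update]
      exact hS.mx
  · exact Function.update_self _ _ _
  · intro j hj
    exact ⟨Function.update_of_ne hj _ _, Function.update_of_ne hj _ _⟩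

end Pool.Agent.H39.NCK
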